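import Mathlib

namespace Pool.Agent.Results.MP_8ee885_co.EvenRank

open Finset TensorProduct

section
variable {r n : ℕ} (v : Fin n → Fin r → ZMod 2)

/-- the Laplacian of the Cayley multigraph -/
def L : Matrix (Fin r → ZMod 2) (Fin r → ZMod 2) ℤ :=
  Matrix.of fun w w' => if w = w' then n else -(#{i | w + v i = w'} : ℤ)

/-- the 2-rank of the torsion subgroup of A / N -/
noncomputable def rk {A : Type} [AddCommGroup A] (N : Submodule ℤ A) : ℕ :=
  Module.finrank (ZMod 2) (ZMod 2 ⊗[ℤ] Submodule.torsion ℤ (A ⧸ N))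

/-- d(M), the 2-rank of the sandpile group, i.e. of the torsion part of the cokernel of L -/
noncomputable def d : ℕ := rk (LinearMap.range (L v).mulVecLin)

abbrev K := Submodule.torsion ℤ (((Fin r → ZMod 2) → ℤ) ⧸ LinearMap.range (L v).mulVecLin)

/-- the eigenvalue λ_u -/
def lam (u : Fin r → ZMod 2) : ℤ := n - ∑ i, (-1) ^ (u ⬝ᵥ v i).val
end

def M : Fin 5 → Fin 2 → ZMod 2 := ![![1, 0], ![1, 0], ![1, 0], ![0, 1], ![1, 1]]

abbrev V := Fin 2 → ZMod 2
abbrev Q := (V → ℤ) ⧸ LinearMap.range (L M).mulVecLin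

def S (R : Type) [CommRing R] : (V → R) →ₗ[R] R := ∑ w, LinearMap.proj w

lemma S_apply (R : Type) [CommRing R] (x : V → R) : S R x = ∑ w, x w := by simp [S]

def s : Q →ₗ[ℤ] ℤ := Submodule.liftQ _ (S ℤ) (by
  rintro _ ⟨x, rfl⟩
  have : ∀ w', ∑ w, L M w w' = 0 := by decide
  simp only [LinearMap.mem_ker, S_apply, Matrix.mulVecLin_apply, Matrix.mulVec, dotProduct]
  rw [sum_comm]
  simp [← sum_mul, this])

lemma tors : K M = LinearMap.ker s := by
  ext x
  obtain ⟨x, rfl⟩ := Submodule.mkQ_surjective _ x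
  constructor
  · rintro ⟨⟨a, ha⟩, h⟩
    have := congrArg s h
    rw [Submonoid.mk_smul, map_smul, map_zero, smul_eq_mul] at this
    exact (mul_eq_zero.mp this).resolve_left (nonZeroDivisors.ne_zero ha)
  · intro h
    replace h : ∑ w, x w = 0 := (S_apply ℤ x).symm.trans h
    refine ⟨⟨32, mem_nonZeroDivisors_of_ne_zero (by norm_num)⟩, ?_⟩
    rw [Submonoid.mk_smul, ← map_smul]
    refine (Submodule.Quotient.mk_eq_zero _).mpr ⟨(12 - L M).mulVec x, ?_⟩
    have e : L M * (12 - L M) = (32 : ℤ) • 1 - Matrix.of fun _ _ => 8 := by decide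
    rw [Matrix.mulVecLin_apply, Matrix.mulVec_mulVec, e, Matrix.sub_mulVec, Matrix.smul_mulVec,
      Matrix.one_mulVec, sub_eq_self]
    ext w
    simp [Matrix.mulVec, dotProduct, ← mul_sum, h]

def e₀ : Q := Submodule.Quotient.mk (Pi.single 0 1)

lemma se : s e₀ = 1 := (S_apply ℤ _).trans (by simp)

def split : Q ≃ₗ[ℤ] ℤ × LinearMap.ker s := LinearEquiv.ofLinearMap
  (s.prod ((LinearMap.id - s.smulRight e₀).codRestrict _ fun x => by simp [se]))
  ((LinearMap.id.smulRight e₀).coprod (Submodule.subtype _))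
  (LinearMap.ext fun ⟨a, y, hy⟩ => by
    have : s y = 0 := hy
    ext <;> simp [se, this])
  (LinearMap.ext fun x => by simp)

lemma homQ : Module.finrank (ZMod 2) (Q →ₗ[ℤ] ZMod 2) = 3 := by
  let f : (Q →ₗ[ℤ] ZMod 2) →ₗ[ZMod 2] (V → ZMod 2) :=
    { toFun := fun g w => g (Submodule.Quotient.mk (Pi.single w 1))
      map_add' := fun _ _ => rfl
      map_smul' := fun _ _ => rfl }
  have hf : Function.Injective f := fun g g' h =>
    Submodule.linearMap_qext _ (LinearMap.pi_ext' fun w => LinearMap.ext_ring (congrFun h w))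
  have par : ∀ w w', ((L M w w' : ℤ) : ZMod 2) = 1 := by decide
  have hr : LinearMap.range f = LinearMap.ker (S (ZMod 2)) := by
    ext y
    rw [LinearMap.mem_ker, S_apply]
    constructor
    · rintro ⟨g, rfl⟩
      have : g (Submodule.Quotient.mk ((L M).mulVecLin (Pi.single 0 1))) = 0 := by
        rw [(Submodule.Quotient.mk_eq_zero _).mpr (LinearMap.mem_range_self _ _), map_zero]
      rw [← this, ← univ_sum_single ((L M).mulVecLin _), ← Submodule.mkQ_apply, map_sum, map_sum]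
      refine sum_congr rfl fun w _ => ?_
      rw [← mul_one ((L M).mulVecLin _ w), ← smul_eq_mul, Pi.single_smul, map_smul, map_smul]
      simp [par, f]
    · intro h
      refine ⟨Submodule.liftQ _ (∑ w, (LinearMap.proj w).smulRight (y w)) ?_, ?_⟩
      · rintro _ ⟨x, rfl⟩
        simp [Matrix.mulVec, dotProduct, par, ← mul_sum, h]
      · ext w
        simp [f, Pi.single_apply]
  have hs : LinearMap.range (S (ZMod 2)) = ⊤ :=
    LinearMap.range_eq_top.mpr fun a => ⟨Pi.single 0 a, (S_apply _ _).trans (by simp)⟩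
  have := (S (ZMod 2)).finrank_range_add_finrank_ker
  rw [hs, ← hr, LinearMap.finrank_range_of_inj hf] at this
  simp at this
  omega

lemma dM : d M = 2 := by
  have h1 := (LinearMap.liftBaseChangeEquiv (R := ℤ) (M := K M) (N := ZMod 2) (ZMod 2)).finrank_eq
  have h2 := ((split.trans ((LinearEquiv.refl ℤ ℤ).prodCongr (LinearEquiv.ofEq _ _ tors.symm))).congrLeft
    (ZMod 2) (ZMod 2)).finrank_eq
  have h3 := (LinearMap.coprodEquiv (R := ℤ) (M := ℤ) (M₂ := K M) (M₃ := ZMod 2) (ZMod 2)).finrank_eq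
  have h4 := (LinearMap.ringLmapEquivSelf ℤ (ZMod 2) (ZMod 2)).finrank_eq
  have : Module.Finite (ZMod 2) (ℤ →ₗ[ℤ] ZMod 2) :=
    .equiv (LinearMap.ringLmapEquivSelf ℤ (ZMod 2) (ZMod 2)).symm
  have : Module.Finite (ZMod 2) (ZMod 2 ⊗[ℤ] K M →ₗ[ZMod 2] ZMod 2) := inferInstance
  have : Module.Finite (ZMod 2) (K M →ₗ[ℤ] ZMod 2) :=
    .equiv (LinearMap.liftBaseChangeEquiv (R := ℤ) (M := K M) (N := ZMod 2) (ZMod 2)).symm
  rw [Module.finrank_prod, h4, ← h2, homQ, h1, Module.finrank_self] at h3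
  rw [d, rk, ← Subspace.dual_finrank_eq]
  exact Nat.add_left_cancel h3

/-- Unequal valuations with even 2-rank. -/
theorem result : ∃ v : Fin 5 → Fin 2 → ZMod 2, (∀ i, v i ≠ 0) ∧
    Submodule.span (ZMod 2) (Set.range v) = ⊤ ∧
    (univ.filter (· ≠ 0)).gcd (fun u => #{i | v i = u}) = 1 ∧
    (∃ u ≠ 0, ∃ u' ≠ 0, padicValInt 2 (lam v u) ≠ padicValInt 2 (lam v u')) ∧ Even (d v) := by
  refine ⟨M, by decide, eq_top_iff.mpr fun x hx => ?_, by decide,
    ⟨![1, 0], by decide, ![0, 1], by decide, ?_⟩, by rw [dM]; decide⟩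
  · have : x = x 0 • M 0 + x 1 • M 3 := by clear hx; revert x; decide
    rw [this]
    exact add_mem (Submodule.smul_mem _ _ (Submodule.subset_span ⟨0, rfl⟩))
      (Submodule.smul_mem _ _ (Submodule.subset_span ⟨3, rfl⟩))
  · rw [show lam M ![1, 0] = (2 ^ 3 : ℕ) by decide, show lam M ![0, 1] = (2 ^ 2 : ℕ) by decide,
      padicValInt.of_nat, padicValInt.of_nat, padicValNat.prime_pow, padicValNat.prime_pow]
    decide

end Pool.Agent.Results.MP_8ee885_co.EvenRank
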